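import Pool.Agent.Helper51.NP.F1
import Pool.Agent.Helper51.NP.D
import Pool.Agent.Helper32.NP.ZY
import Pool.Agent.Helper32.NP.ZZ

/-!
# Project NP, block F2: the geodesic stays in a tube
-/

set_option autoImplicit false

namespace Pool.Agent.Helper99.NP

open MeasureTheory ProbabilityTheory Filter Pool.Agent.Helper79.GR Pool.Agent.Helper79.GQ
open Pool.Agent.Helper51.NP

theorem abs_h_le {d : ℕ} (h : F d →L[ℝ] ℝ) (x : F d) : |h x| ≤ ‖h‖ * nr x := by
  have h3 := h.le_opNorm x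
  rw [Real.norm_eq_abs] at h3
  refine h3.trans (mul_le_mul_of_nonneg_left ?_ (norm_nonneg h))
  rw [pi_norm_le_iff_of_nonneg (Pool.Agent.Helper19.PG.nr_nonneg x)]
  intro i
  rw [Real.norm_eq_abs]
  exact Finset.single_le_sum (f := fun i => |x i|) (fun i _ => abs_nonneg (x i))
    (Finset.mem_univ i)

theorem nr_rv {d : ℕ} (q : V d) : nr (rv q) = n1 q := rfl

theorem rv_sub {d : ℕ} (q z : V d) : rv (q - z) = rv q - rv z := by
  funext i
  simp [rv]

/-- the numbers of the exit term -/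
theorem numbers (d : ℕ) (C K₁ K₂ H K : ℝ) (hC : 1 ≤ C) (hK₁ : 1 ≤ K₁) (hK₂ : 1 ≤ K₂) (hH : 0 ≤ H)
    (hK : C * ((Real.log (3 * K₂) + 1 + 2 * (2 * d + 3)) * d + 3 * C * H * K₂ + Real.log K₁ +
      2 * d + 2) ≤ K) (L : ℕ) (hL : 1 ≤ L) (l E κ : ℝ) (hl : 0 < l) (hll : (1 / 4) ^ L ≤ l)
    (hE : l ^ (2 * d + 2) ≤ E) (hκ0 : 0 ≤ κ) (hκ : κ ≤ L) :
    K₁ * (L : ℝ) ^ (2 * d) * ((2 * (K₂ * κ / (l * E)) + 1) ^ d *
      Real.exp (3 * C * H * K₂ * κ - K * L / C)) ≤ 1 / 4 := by
  have hL1 : (1 : ℝ) ≤ L := by exact_mod_cast hL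
  have hC0 : 0 < C := by linarith
  have hE0 : 0 < E := lt_of_lt_of_le (by positivity) hE
  have hlog2 : 0 ≤ Real.log (3 * K₂) := Real.log_nonneg (by linarith)
  have hlog1 : 0 ≤ Real.log K₁ := Real.log_nonneg hK₁
  have e4 : (4 : ℝ) ≤ Real.exp 2 := by
    have h1 : (2 : ℝ) ≤ Real.exp 1 := by
      have := Real.add_one_le_exp (1 : ℝ)
      linarith
    have h2 : Real.exp 2 = Real.exp 1 * Real.exp 1 := by
      rw [← Real.exp_add]
      norm_num
    rw [h2]
    nlinarith
  -- `1 / (l E) ≤ exp (2 L (2 d + 3))`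
  have a1 : 1 / (l * E) ≤ Real.exp (2 * (2 * d + 3) * L) := by
    have h1 : (1 / 4 : ℝ) ^ (L * (2 * d + 3)) ≤ l * E := by
      calc (1 / 4 : ℝ) ^ (L * (2 * d + 3)) = ((1 / 4 : ℝ) ^ L) ^ (2 * d + 3) := pow_mul _ _ _
        _ ≤ l ^ (2 * d + 3) := pow_le_pow_left₀ (by positivity) hll _
        _ = l * l ^ (2 * d + 2) := by ring
        _ ≤ l * E := mul_le_mul_of_nonneg_left hE hl.le
    have h2 : 1 / (l * E) ≤ 4 ^ (L * (2 * d + 3)) := by
      rw [div_le_iff₀ (by positivity)]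
      calc (1 : ℝ) = 4 ^ (L * (2 * d + 3)) * (1 / 4) ^ (L * (2 * d + 3)) := by
            rw [← mul_pow]
            norm_num
        _ ≤ _ := mul_le_mul_of_nonneg_left h1 (by positivity)
    refine h2.trans ?_
    calc (4 : ℝ) ^ (L * (2 * d + 3)) ≤ (Real.exp 2) ^ (L * (2 * d + 3)) :=
          pow_le_pow_left₀ (by norm_num) e4 _
      _ = Real.exp (2 * (2 * d + 3) * L) := by
          rw [← Real.exp_nat_mul]
          congr 1
          push_cast
          ring
  have a2 : (L : ℝ) ≤ Real.exp L := by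
    have := Real.add_one_le_exp (L : ℝ)
    linarith
  have a3 : 2 * (K₂ * κ / (l * E)) + 1 ≤
      Real.exp ((Real.log (3 * K₂) + 1 + 2 * (2 * d + 3)) * L) := by
    have h1 : K₂ * κ / (l * E) ≤ K₂ * (Real.exp L * Real.exp (2 * (2 * d + 3) * L)) := by
      rw [mul_div_assoc]
      refine mul_le_mul_of_nonneg_left ?_ (by linarith)
      rw [div_eq_mul_one_div]
      exact mul_le_mul (hκ.trans a2) a1 (by positivity) (Real.exp_pos _).le
    have h2 : (1 : ℝ) ≤ K₂ * (Real.exp L * Real.exp (2 * (2 * d + 3) * L)) := by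
      have h3 : (1 : ℝ) ≤ Real.exp L := Real.one_le_exp (by linarith)
      have h4 : (1 : ℝ) ≤ Real.exp (2 * (2 * d + 3) * L) := Real.one_le_exp (by positivity)
      have h5 : (1 : ℝ) ≤ Real.exp L * Real.exp (2 * (2 * d + 3) * L) := by nlinarith
      nlinarith
    have h6 : 3 * K₂ ≤ Real.exp (Real.log (3 * K₂) * L) := by
      calc 3 * K₂ = Real.exp (Real.log (3 * K₂)) := (Real.exp_log (by linarith)).symm
        _ ≤ _ := Real.exp_le_exp.2 (le_mul_of_one_le_right hlog2 hL1)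
    calc 2 * (K₂ * κ / (l * E)) + 1 ≤ 3 * K₂ * (Real.exp L * Real.exp (2 * (2 * d + 3) * L)) := by
          linarith
      _ ≤ Real.exp (Real.log (3 * K₂) * L) *
          (Real.exp L * Real.exp (2 * (2 * d + 3) * L)) :=
          mul_le_mul_of_nonneg_right h6 (by positivity)
      _ = _ := by
          rw [← Real.exp_add, ← Real.exp_add]
          congr 1
          ring
  have a4 : (2 * (K₂ * κ / (l * E)) + 1) ^ d ≤
      Real.exp ((Real.log (3 * K₂) + 1 + 2 * (2 * d + 3)) * L * d) := by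
    calc (2 * (K₂ * κ / (l * E)) + 1) ^ d ≤
          (Real.exp ((Real.log (3 * K₂) + 1 + 2 * (2 * d + 3)) * L)) ^ d :=
          pow_le_pow_left₀ (by positivity) a3 d
      _ = _ := by
          rw [← Real.exp_nat_mul]
          congr 1
          ring
  have a5 : K₁ * (L : ℝ) ^ (2 * d) ≤ Real.exp (Real.log K₁ * L + 2 * d * L) := by
    rw [Real.exp_add]
    refine mul_le_mul ?_ ?_ (by positivity) (Real.exp_pos _).le
    · calc K₁ = Real.exp (Real.log K₁) := (Real.exp_log (by linarith)).symm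
        _ ≤ _ := Real.exp_le_exp.2 (le_mul_of_one_le_right hlog1 hL1)
    · calc (L : ℝ) ^ (2 * d) ≤ (Real.exp L) ^ (2 * d) := pow_le_pow_left₀ (by positivity) a2 _
        _ = _ := by
          rw [← Real.exp_nat_mul]
          congr 1
          push_cast
          ring
  have a6 : ((Real.log (3 * K₂) + 1 + 2 * (2 * d + 3)) * d + 3 * C * H * K₂ + Real.log K₁ +
      2 * d + 2) * L ≤ K * L / C := by
    rw [le_div_iff₀ hC0]
    have := mul_le_mul_of_nonneg_right hK (show (0 : ℝ) ≤ L by positivity)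
    linarith
  have a7 : 3 * C * H * K₂ * κ ≤ 3 * C * H * K₂ * L :=
    mul_le_mul_of_nonneg_left hκ (by positivity)
  calc K₁ * (L : ℝ) ^ (2 * d) * ((2 * (K₂ * κ / (l * E)) + 1) ^ d *
      Real.exp (3 * C * H * K₂ * κ - K * L / C)) ≤
      Real.exp (Real.log K₁ * L + 2 * d * L) *
        (Real.exp ((Real.log (3 * K₂) + 1 + 2 * (2 * d + 3)) * L * d) *
      Real.exp (3 * C * H * K₂ * κ - K * L / C)) :=
        mul_le_mul a5 (mul_le_mul_of_nonneg_right a4 (Real.exp_pos _).le)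
          (by positivity) (Real.exp_pos _).le
    _ = Real.exp (Real.log K₁ * L + 2 * d * L +
        ((Real.log (3 * K₂) + 1 + 2 * (2 * d + 3)) * L * d +
          (3 * C * H * K₂ * κ - K * L / C))) := by
        rw [← Real.exp_add, ← Real.exp_add]
    _ ≤ Real.exp (-2) := by
        refine Real.exp_le_exp.2 ?_
        nlinarith
    _ ≤ 1 / 4 := by
        rw [Real.exp_neg, inv_eq_one_div]
        exact one_div_le_one_div_of_le (by norm_num) e4

variable {Ω : Type*} [MeasurableSpace Ω] {P : Measure Ω} {d : ℕ} {X : Edge d → Ω → ℝ}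
  {ν : Measure ℝ} {a b B s C : ℝ} {v : F d} {h : F d →L[ℝ] ℝ}

/-- one exit point -/
theorem exit_le (hE : Env P X ν a b) {L : ℕ} {l D E : ℝ} {g : F d →L[ℝ] ℝ}
    (hp : Pack P X v h C L l D E g) (hC : 1 ≤ C) (hL : 1 ≤ L) (q z : V d) (N W : ℝ)
    (hz : n1 z ≤ N) (hq : n1 q ≤ N) (hW : W < tr v h (rv z)) :
    √(Z P X (2 * l) 0 z) * √(Z P X (2 * l) z q) * Real.exp (l * g (rv q)) ≤
      Real.exp (3 * C * ‖h‖ * (l * E * N) - l * W / (C * L)) := by
  have hl := hp.lpos
  have hL0 : (0 : ℝ) < L := by exact_mod_cast hL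
  have hE0 : 0 < E := by
    rw [hp.DE]
    have h1 := hp.D0
    positivity
  have key : ∀ y : V d, √(Z P X (2 * l) 0 y) * Real.exp (l * g (rv y)) ≤
      Real.exp (l * (C * E * max (h (rv y)) 0 - tr v h (rv y) / (C * L))) := by
    intro y
    have h1 : √(Z P X (2 * l) 0 y) * Real.exp (l * g (rv y)) =
        √(Z P X (2 * l) 0 y * Real.exp (2 * l * g (rv y))) := by
      rw [Real.sqrt_mul (Z_pos hE 0 y).le]
      congr 1
      have h2 : Real.exp (2 * l * g (rv y)) = Real.exp (l * g (rv y)) ^ 2 := by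
        rw [← Real.exp_nat_mul]
        congr 1
        push_cast
        ring
      rw [h2, Real.sqrt_sq (Real.exp_pos _).le]
    rw [h1]
    refine Real.sqrt_le_iff.2 ⟨(Real.exp_pos _).le, (hp.z2 y).trans (le_of_eq ?_)⟩
    rw [← Real.exp_nat_mul]
    congr 1
    push_cast
    ring
  have e1 : Z P X (2 * l) z q = Z P X (2 * l) 0 (q - z) := Z_eq_zero_sub hE _ z q
  have e2 : Real.exp (l * g (rv q)) = Real.exp (l * g (rv z)) * Real.exp (l * g (rv (q - z))) := by
    rw [← Real.exp_add, rv_sub, map_sub]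
    congr 1
    ring
  have hN : 0 ≤ N := (n1_nonneg z).trans hz
  have m1 : max (h (rv z)) 0 ≤ ‖h‖ * N := by
    refine max_le ((le_abs_self _).trans ((abs_h_le h _).trans ?_)) (by positivity)
    rw [nr_rv]
    exact mul_le_mul_of_nonneg_left hz (norm_nonneg _)
  have m2 : max (h (rv (q - z))) 0 ≤ ‖h‖ * (2 * N) := by
    refine max_le ((le_abs_self _).trans ((abs_h_le h _).trans ?_)) (by positivity)
    rw [nr_rv]
    refine mul_le_mul_of_nonneg_left ?_ (norm_nonneg _)
    have h3 := n1_add_le q (-z)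
    rw [n1_neg, ← sub_eq_add_neg] at h3
    linarith
  have t1 := tr_nonneg (v := v) (h := h) (rv (q - z))
  calc √(Z P X (2 * l) 0 z) * √(Z P X (2 * l) z q) * Real.exp (l * g (rv q)) =
        (√(Z P X (2 * l) 0 z) * Real.exp (l * g (rv z))) *
          (√(Z P X (2 * l) 0 (q - z)) * Real.exp (l * g (rv (q - z)))) := by
        rw [e1, e2]
        ring
    _ ≤ Real.exp (l * (C * E * max (h (rv z)) 0 - tr v h (rv z) / (C * L))) *
        Real.exp (l * (C * E * max (h (rv (q - z))) 0 - tr v h (rv (q - z)) / (C * L))) :=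
        mul_le_mul (key z) (key (q - z)) (by positivity) (Real.exp_pos _).le
    _ ≤ Real.exp (3 * C * ‖h‖ * (l * E * N) - l * W / (C * L)) := by
        rw [← Real.exp_add]
        refine Real.exp_le_exp.2 ?_
        have hCL : 0 < C * L := by positivity
        have b1 : l * (C * E * max (h (rv z)) 0) ≤ l * (C * E * (‖h‖ * N)) := by gcongr
        have b2 : l * (C * E * max (h (rv (q - z))) 0) ≤ l * (C * E * (‖h‖ * (2 * N))) := by
          gcongr
        have b3 : l * W / (C * L) ≤ l * (tr v h (rv z) / (C * L)) := by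
          rw [mul_div_assoc]
          gcongr
        have b4 : 0 ≤ l * (tr v h (rv (q - z)) / (C * L)) := by positivity
        have b5 : l * (C * E * (‖h‖ * N)) + l * (C * E * (‖h‖ * (2 * N))) =
            3 * C * ‖h‖ * (l * E * N) := by ring
        rw [mul_sub, mul_sub]
        linarith

theorem tube_moments (hE : Env P X ν a b) (hv : h v = 1) (hC : 1 ≤ C) (hB : b ≤ B) :
    ∃ K : ℝ, 1 ≤ K ∧ ∃ L₀ : ℕ, ∀ L : ℕ, L₀ ≤ L → ∀ (l D E : ℝ) (g : F d →L[ℝ] ℝ),
      Pack P X v h C L l D E g → ∀ κ : ℝ, 1 ≤ κ → κ ≤ L → ∃ q : V d,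
        κ / (2 * (l * E)) ≤ h (rv q) ∧ h (rv q) ≤ 2 * κ / (l * E) ∧
        tr v h (rv q) ≤ K * L ^ 2 / l ∧
        Real.exp (κ * D / E) - 1 / 2 ≤ K * L ^ (2 * d) *
          (Zc P X (tub v h (K * L ^ 2 / l) (K * κ / (l * E))) B l 0 q *
            Real.exp (l * g (rv q))) ∧
        Z P X l 0 q * Real.exp (l * g (rv q)) ≤ Real.exp (K * κ) ∧
        Z P X (2 * l) 0 q * Real.exp (2 * l * g (rv q)) ≤ Real.exp (K * κ) := by
  obtain ⟨K₁, hK₁, L₁, hgp⟩ := good_point hE hv hC
  have ha := hE.apos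
  have hab : a ≤ b := by
    have := hE.prob
    obtain ⟨ω⟩ := P.nonempty_of_neZero
    rcases isEmpty_or_nonempty (Fin d) with hd | ⟨⟨i⟩⟩
    · exfalso
      have h0 : v = 0 := Subsingleton.elim _ _
      rw [h0, map_zero] at hv
      exact zero_ne_one hv
    · have h1 := hE.bd (ed 0 (i, true)) ω
      exact h1.1.trans h1.2
  have hb : 0 < b := ha.trans_le hab
  set H : ℝ := ‖h‖ with hH
  have hH0 : 0 ≤ H := norm_nonneg h
  have hnv : 0 ≤ nr v := Pool.Agent.Helper19.PG.nr_nonneg v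
  set K₂ : ℝ := b / a * (2 * nr v + K₁ * C) + 1 with hK₂
  have hK₂1 : 1 ≤ K₂ := by
    have : 0 ≤ b / a * (2 * nr v + K₁ * C) := by positivity
    linarith
  set K₃ : ℝ := (Real.log (3 * K₂) + 1 + 2 * (2 * d + 3)) * d + 3 * C * H * K₂ + Real.log K₁ +
    2 * d + 2 with hK₃
  have hK₃0 : 0 ≤ K₃ := by
    have h1 : 0 ≤ Real.log (3 * K₂) := Real.log_nonneg (by linarith)
    have h2 : 0 ≤ Real.log K₁ := Real.log_nonneg hK₁
    positivity
  set K : ℝ := K₁ + K₂ + 4 * C + C * K₃ with hK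
  have hCK₃ : 0 ≤ C * K₃ := mul_nonneg (by linarith) hK₃0
  have hKK₁ : K₁ ≤ K := by linarith
  have hKK₂ : K₂ ≤ K := by linarith
  have hKC : 4 * C ≤ K := by linarith
  have hKK₃ : C * K₃ ≤ K := by linarith
  refine ⟨K, by linarith, max L₁ 4, fun L hL l D E g hp κ hκ hκL => ?_⟩
  have hL₁ : L₁ ≤ L := (le_max_left _ _).trans hL
  have hL4 : 4 ≤ L := (le_max_right _ _).trans hL
  have hL1 : 1 ≤ L := by omega
  have hL1' : (1 : ℝ) ≤ L := by exact_mod_cast hL1
  have hl := hp.lpos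
  have hE0 : 0 < E := by
    rw [hp.DE]
    have h1 := hp.D0
    positivity
  have hlE : 0 < l * E := mul_pos hl hE0
  obtain ⟨q, q1, q2, q3, q4⟩ := hgp L hL₁ l D E g hp κ hκ hκL
  have hhq : 0 < h (rv q) := lt_of_lt_of_le (by positivity) q1
  have htq := tr_nonneg (v := v) (h := h) (rv q)
  -- `L ^ 2 l ≤ 1`
  have hLl : (L : ℝ) ^ 2 * l ≤ 1 := by
    have h1 : L ^ 2 ≤ 2 ^ L := by
      clear * - hL4
      induction L, hL4 using Nat.le_induction with
      | base => norm_num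
      | succ n hn ih =>
        rw [pow_succ 2 n]
        nlinarith
    have h2 : (L : ℝ) ^ 2 ≤ 2 ^ L := by exact_mod_cast h1
    calc (L : ℝ) ^ 2 * l ≤ 2 ^ L * (1 / 2) ^ L :=
          mul_le_mul h2 hp.lup hl.le (by positivity)
      _ = 1 := by
          rw [← mul_pow]
          norm_num
  have hq1 : n1 q ≤ (2 * nr v + K₁ * C) * (κ / (l * E)) := by
    rw [← nr_rv]
    have h1 := nr_le_tr (v := v) (h := h) (rv q)
    rw [abs_of_pos hhq] at h1
    have h2 : h (rv q) * nr v ≤ 2 * κ / (l * E) * nr v := mul_le_mul_of_nonneg_right q2 hnv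
    have h3 : K₁ * (L : ℝ) ^ 2 / l ≤ K₁ * C * (κ / (l * E)) := by
      have h4 : K₁ * C * (κ / (l * E)) = K₁ * (C * κ / E) / l := by
        field_simp
      rw [h4]
      refine div_le_div_of_nonneg_right ?_ hl.le
      refine mul_le_mul_of_nonneg_left ?_ (by linarith)
      rw [le_div_iff₀ hE0]
      calc (L : ℝ) ^ 2 * E ≤ (L : ℝ) ^ 2 * (C * l) :=
            mul_le_mul_of_nonneg_left hp.EC (by positivity)
        _ = C * ((L : ℝ) ^ 2 * l) := by ring
        _ ≤ C * κ := mul_le_mul_of_nonneg_left (hLl.trans hκ) (by linarith)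
    calc nr (rv q) ≤ h (rv q) * nr v + tr v h (rv q) := h1
      _ ≤ 2 * κ / (l * E) * nr v + K₁ * C * (κ / (l * E)) := by linarith [q3.trans h3]
      _ = _ := by ring
  have hN : b * n1 q ≤ a * (K₂ * κ / (l * E)) := by
    have h1 : a * (K₂ * κ / (l * E)) = (b * (2 * nr v + K₁ * C) + a) * (κ / (l * E)) := by
      rw [hK₂]
      field_simp
    rw [h1]
    have h2 : b * n1 q ≤ b * ((2 * nr v + K₁ * C) * (κ / (l * E))) :=
      mul_le_mul_of_nonneg_left hq1 hb.le
    have h3 : 0 ≤ a * (κ / (l * E)) := by positivity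
    nlinarith
  set N : ℝ := K₂ * κ / (l * E) with hNdef
  have hN0 : 0 ≤ N := by
    rw [hNdef]
    positivity
  have hqN : n1 q ≤ N := by
    have h1 : a * n1 q ≤ b * n1 q := mul_le_mul_of_nonneg_right hab (n1_nonneg q)
    have h2 : a * n1 q ≤ a * N := h1.trans hN
    exact le_of_mul_le_mul_left h2 ha
  refine ⟨q, q1, q2, q3.trans ?_, ?_, ?_, ?_⟩
  · refine div_le_div_of_nonneg_right ?_ hl.le
    exact mul_le_mul_of_nonneg_right hKK₁ (by positivity)
  · -- the tube
    set W : ℝ := K * L ^ 2 / l with hW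
    have s1 := Pool.Agent.Helper32.NP.Z_sub_Zc_le (v := v) (h := h) hE hB l W N hl q hN
    set M : ℝ := Real.exp (3 * C * ‖h‖ * (l * E * N) - l * W / (C * L)) with hM
    set eg : ℝ := Real.exp (l * g (rv q)) with heg
    have heg0 : 0 < eg := Real.exp_pos _
    have hM0 : 0 < M := Real.exp_pos _
    have s2 : ∑ᶠ z ∈ {z : V d | n1 z ≤ N ∧ W < tr v h (rv z)},
        √(Z P X (2 * l) 0 z) * √(Z P X (2 * l) z q) ≤ (2 * N + 1) ^ d * (M / eg) := by
      refine Pool.Agent.Helper32.NP.finsum_ball_le _ N (M / eg) hN0 (fun z hz => hz.1) _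
        (by positivity) fun z hz => ?_
      rw [le_div_iff₀ heg0]
      exact exit_le hE hp hC hL1 q z N W hz.1 hqN hz.2
    have s3 : Z P X l 0 q * eg ≤ Zc P X (tub v h W N) B l 0 q * eg + (2 * N + 1) ^ d * M := by
      calc Z P X l 0 q * eg ≤ (Zc P X (tub v h W N) B l 0 q + (2 * N + 1) ^ d * (M / eg)) * eg :=
            mul_le_mul_of_nonneg_right (s1.trans (add_le_add le_rfl s2)) heg0.le
        _ = _ := by
          rw [add_mul, mul_assoc, div_mul_cancel₀ _ heg0.ne']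
    have s4 : M = Real.exp (3 * C * H * K₂ * κ - K * L / C) := by
      rw [hM]
      congr 1
      have h1 : l * E * N = K₂ * κ := by
        rw [hNdef]
        field_simp
      have h2 : l * W / (C * L) = K * L / C := by
        rw [hW]
        have : (L : ℝ) ≠ 0 := by positivity
        field_simp
      rw [h1, h2]
      ring
    have s5 : K₁ * (L : ℝ) ^ (2 * d) * ((2 * N + 1) ^ d * M) ≤ 1 / 4 := by
      rw [s4]
      exact numbers d C K₁ K₂ H K hC hK₁ hK₂1 hH0 hKK₃ L hL1 l E κ hl hp.llo (by rw [hp.DE]; linarith [hp.D0])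
        (by linarith) hκL
    have s6 : Zc P X (tub v h W N) B l 0 q ≤ Zc P X (tub v h W (K * κ / (l * E))) B l 0 q := by
      refine Pool.Agent.Helper32.NP.Zc_mono hE hB
        (Pool.Agent.Helper32.NP.tub_mono le_rfl ?_) hl.le 0 q
      rw [hNdef]
      refine div_le_div_of_nonneg_right ?_ hlE.le
      exact mul_le_mul_of_nonneg_right hKK₂ (by linarith)
    have s7 : 0 < Zc P X (tub v h W (K * κ / (l * E))) B l 0 q := Zc_pos hE hB _ 0 q
    have hLd : (0 : ℝ) ≤ (L : ℝ) ^ (2 * d) := by positivity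
    have hKL : 0 ≤ K₁ * (L : ℝ) ^ (2 * d) := mul_nonneg (by linarith) hLd
    calc Real.exp (κ * D / E) - 1 / 2 ≤
          K₁ * (L : ℝ) ^ (2 * d) * (Z P X l 0 q * eg) - 1 / 4 := by linarith
      _ ≤ K₁ * (L : ℝ) ^ (2 * d) * (Zc P X (tub v h W N) B l 0 q * eg + (2 * N + 1) ^ d * M) -
          1 / 4 := by
          have := mul_le_mul_of_nonneg_left s3 hKL
          linarith
      _ ≤ K₁ * (L : ℝ) ^ (2 * d) * (Zc P X (tub v h W N) B l 0 q * eg) := by
          rw [mul_add]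
          linarith
      _ ≤ K * (L : ℝ) ^ (2 * d) * (Zc P X (tub v h W (K * κ / (l * E))) B l 0 q * eg) := by
          refine mul_le_mul (mul_le_mul_of_nonneg_right hKK₁ hLd)
            (mul_le_mul_of_nonneg_right s6 heg0.le) ?_ ?_
          · exact mul_nonneg (Zc_pos hE hB _ 0 q).le heg0.le
          · exact mul_nonneg (by linarith) hLd
  · refine (hp.z1 q).trans (Real.exp_le_exp.2 ?_)
    rw [max_eq_left hhq.le]
    have h1 : l * (C * E * h (rv q)) ≤ l * (C * E * (2 * κ / (l * E))) := by gcongr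
    have h2 : l * (C * E * (2 * κ / (l * E))) = 2 * C * κ := by field_simp
    have h3 : 0 ≤ l * (tr v h (rv q) / (C * L)) := by positivity
    have h4 : 4 * C * κ ≤ K * κ := mul_le_mul_of_nonneg_right hKC (by linarith)
    have h5 : 0 ≤ C * κ := by positivity
    rw [mul_sub]
    linarith
  · refine (hp.z2 q).trans (Real.exp_le_exp.2 ?_)
    rw [max_eq_left hhq.le]
    have h1 : l * (C * E * h (rv q)) ≤ l * (C * E * (2 * κ / (l * E))) := by gcongr
    have h2 : l * (C * E * (2 * κ / (l * E))) = 2 * C * κ := by field_simp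
    have h3 : 0 ≤ l * (tr v h (rv q) / (C * L)) := by positivity
    have h4 : 4 * C * κ ≤ K * κ := mul_le_mul_of_nonneg_right hKC (by linarith)
    have h5 : 2 * l * (C * E * h (rv q) - tr v h (rv q) / (C * L)) =
        2 * (l * (C * E * h (rv q))) - 2 * (l * (tr v h (rv q) / (C * L))) := by ring
    rw [h5]
    linarith

end Pool.Agent.Helper99.NP
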